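import Mathlib

/-! Affine maps of finite nilpotent groups: heap maps, fixed points, projections. -/

namespace H9.Aff

open Function

universe u

variable {G : Type u} [Group G]

/-- Maps preserving the heap operation `x y⁻¹ z`. -/
def IsHeap (A : G → G) : Prop := ∀ x y z, A (x * y⁻¹ * z) = A x * (A y)⁻¹ * A z

/-- Sets closed under the heap operation. -/
def HeapClosed (S : Set G) : Prop := ∀ x ∈ S, ∀ y ∈ S, ∀ z ∈ S, x * y⁻¹ * z ∈ S

lemma affine_isHeap (α : G ≃* G) (t : G) (A : G → G) (hA : ∀ x, A x = t * α x) : IsHeap A := by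
  intro x y z
  simp only [hA, map_mul, map_inv]
  group

lemma IsHeap.pow {A : Equiv.Perm G} (h : IsHeap A) (k : ℕ) : IsHeap (A ^ k : Equiv.Perm G) := by
  induction k with
  | zero => intro x y z; simp
  | succ k ih =>
    intro x y z
    rw [pow_succ']
    simp only [Equiv.Perm.mul_apply]
    rw [ih, h]

lemma IsHeap.symm {A : Equiv.Perm G} (h : IsHeap A) : IsHeap (A.symm : G → G) := by
  intro x y z
  apply A.injective
  rw [h]
  simp

lemma HeapClosed.card {p : ℕ} [Fact p.Prime] [Finite G] (hG : IsPGroup p G) {S : Set G}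
    (hS : HeapClosed S) (hne : S.Nonempty) : ∃ k, Nat.card S = p ^ k := by
  obtain ⟨x0, h0⟩ := hne
  let H : Subgroup G :=
    { carrier := {h | x0 * h ∈ S}
      mul_mem' := by
        intro a b ha hb
        have := hS _ ha _ h0 _ hb
        simp only [Set.mem_setOf_eq]
        have e : x0 * (a * b) = x0 * a * x0⁻¹ * (x0 * b) := by group
        rw [e]; exact this
      one_mem' := by simpa using h0
      inv_mem' := by
        intro a ha
        have := hS _ h0 _ ha _ h0
        simp only [Set.mem_setOf_eq]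
        have e : x0 * a⁻¹ = x0 * (x0 * a)⁻¹ * x0 := by group
        rw [e]; exact this }
  have e : H ≃ S :=
    { toFun := fun h => ⟨x0 * h, h.2⟩
      invFun := fun s => ⟨x0⁻¹ * s, by
        change x0 * (x0⁻¹ * (s : G)) ∈ S
        simp⟩
      left_inv := by intro h; simp
      right_inv := by intro s; simp }
  rw [← Nat.card_congr e]
  exact (IsPGroup.iff_card.mp (hG.to_subgroup H))

lemma HeapClosed.fix {S : Set G} (hS : HeapClosed S) {A : G → G} (hA : IsHeap A) :
    HeapClosed {x | x ∈ S ∧ A x = x} := by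
  rintro x ⟨hx, hx'⟩ y ⟨hy, hy'⟩ z ⟨hz, hz'⟩
  refine ⟨hS x hx y hy z hz, ?_⟩
  rw [hA, hx', hy', hz']

lemma mem_pow_iff {A : Equiv.Perm G} {S : Set G} (h : ∀ x, A x ∈ S ↔ x ∈ S) (k : ℕ) :
    ∀ x, (A ^ k) x ∈ S ↔ x ∈ S := by
  induction k with
  | zero => intro x; simp
  | succ k ih => intro x; rw [pow_succ', Equiv.Perm.mul_apply, h, ih]

lemma exists_fix {p : ℕ} [hp : Fact p.Prime] [Finite G] (hG : IsPGroup p G) (m : ℕ) :
    ∀ (_ : ¬ p ∣ m) (_ : m ≠ 0) (B : Equiv.Perm G) (_ : IsHeap B) (_ : B ^ m = 1)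
      (S : Set G) (_ : HeapClosed S) (_ : S.Nonempty) (_ : ∀ x, B x ∈ S ↔ x ∈ S),
      ∃ x ∈ S, B x = x := by
  classical
  induction m using induction_on_primes with
  | zero => intro _ h; exact absurd rfl h
  | one =>
    intro _ _ B _ hB S _ hne _
    obtain ⟨x, hx⟩ := hne
    rw [pow_one] at hB
    exact ⟨x, hx, by rw [hB]; rfl⟩
  | prime_mul r m hr ih =>
    intro hpm hm0 B hB hBm S hS hne hBS
    have hrp : r ≠ p := by
      rintro rfl
      exact hpm (dvd_mul_right _ _)
    have hm : m ≠ 0 := by rintro rfl; simp at hm0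
    obtain ⟨x, hxS, hx⟩ := ih (fun h => hpm (dvd_mul_of_dvd_right h _)) hm (B ^ r) (hB.pow r)
      (by rw [← pow_mul]; exact hBm) S hS hne (mem_pow_iff hBS r)
    let T : Set G := {x | x ∈ S ∧ (B ^ r) x = x}
    have hT : HeapClosed T := hS.fix (hB.pow r)
    have hTne : T.Nonempty := ⟨x, hxS, hx⟩
    have hBT : ∀ x, B x ∈ T ↔ x ∈ T := by
      intro x
      have e : (B ^ r) (B x) = B ((B ^ r) x) := by
        rw [← Equiv.Perm.mul_apply, ← Equiv.Perm.mul_apply, ← pow_succ, ← pow_succ']
      simp only [T, Set.mem_setOf_eq, hBS, e, EmbeddingLike.apply_eq_iff_eq]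
    let σ : Equiv.Perm T := B.subtypePerm hBT
    have hσ : σ ^ r ^ 1 = 1 := by
      rw [pow_one]
      ext y
      rw [Equiv.Perm.subtypePerm_pow]
      exact y.2.2
    obtain ⟨k, hk⟩ := hT.card hG hTne
    haveI : Fact r.Prime := ⟨hr⟩
    haveI : Fintype T := Fintype.ofFinite T
    have hcard : ¬ r ∣ Fintype.card T := by
      rw [← Nat.card_eq_fintype_card, hk]
      intro h
      exact hrp ((Nat.prime_dvd_prime_iff_eq hr hp.out).mp (hr.dvd_of_dvd_pow h))
    obtain ⟨a, ha⟩ := Equiv.Perm.exists_fixed_point_of_prime hcard hσ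
    refine ⟨a, a.2.1, ?_⟩
    have := congrArg Subtype.val ha
    simpa [σ] using this

/-- Recentring a heap permutation at a fixed point gives an automorphism. -/
def recentre (A : Equiv.Perm G) (hA : IsHeap A) (x0 : G) (h0 : A x0 = x0) : MulAut G :=
  { toFun := fun y => x0⁻¹ * A (x0 * y)
    invFun := fun y => x0⁻¹ * A.symm (x0 * y)
    left_inv := by intro y; simp
    right_inv := by intro y; simp
    map_mul' := by
      intro y z
      have e : x0 * (y * z) = (x0 * y) * x0⁻¹ * (x0 * z) := by group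
      rw [e, hA, h0]
      group }

lemma recentre_apply (A : Equiv.Perm G) (hA : IsHeap A) (x0 : G) (h0 : A x0 = x0) (y : G) :
    recentre A hA x0 h0 y = x0⁻¹ * A (x0 * y) := rfl

lemma recentre_pow (A : Equiv.Perm G) (hA : IsHeap A) (x0 : G) (h0 : A x0 = x0) (k : ℕ) (y : G) :
    (recentre A hA x0 h0 ^ k) y = x0⁻¹ * (A ^ k) (x0 * y) := by
  induction k with
  | zero => simp
  | succ k ih =>
    rw [pow_succ', MulAut.mul_apply, ih, recentre_apply, pow_succ', Equiv.Perm.mul_apply]
    simp

/-- Commuting idempotents of an abelian group, none of them the identity, and a proper subset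
stable under all of them: some point outside the subset is moved by all of them. -/
lemma proj_lemma {A : Type*} [AddCommGroup A] {ι : Type*} [DecidableEq ι] (s : Finset ι)
    (P : ι → AddMonoid.End A)
    (hidem : ∀ i ∈ s, ∀ v, P i (P i v) = P i v)
    (hcomm : ∀ i ∈ s, ∀ j ∈ s, ∀ v, P i (P j v) = P j (P i v))
    (W : Set A) (hW : ∀ i ∈ s, ∀ v ∈ W, P i v ∈ W) (hne : ∃ v, v ∉ W)
    (hP : ∀ i ∈ s, ∃ v, P i v ≠ v) :
    ∃ v, v ∉ W ∧ ∀ i ∈ s, P i v ≠ v := by
  induction s using Finset.induction_on with
  | empty =>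
    obtain ⟨v, hv⟩ := hne
    exact ⟨v, hv, by simp⟩
  | insert i s his ih =>
    obtain ⟨v, hvW, hv⟩ := ih (fun j hj => hidem j (Finset.mem_insert_of_mem hj))
      (fun j hj k hk => hcomm j (Finset.mem_insert_of_mem hj) k (Finset.mem_insert_of_mem hk))
      (fun j hj => hW j (Finset.mem_insert_of_mem hj))
      (fun j hj => hP j (Finset.mem_insert_of_mem hj))
    have hi := Finset.mem_insert_self i s
    by_cases h : P i v = v
    · obtain ⟨u, hu⟩ := hP i hi
      set u' := u - P i u with hu'
      have h1 : P i u' = 0 := by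
        rw [hu', map_sub, hidem i hi, sub_self]
      have h2 : u' ≠ 0 := by
        rw [hu', Ne, sub_eq_zero]
        exact fun h => hu h.symm
      have h3 : P i (v + u') = v := by rw [map_add, h, h1, add_zero]
      refine ⟨v + u', ?_, ?_⟩
      · intro hmem
        apply hvW
        rw [← h3]
        exact hW i hi _ hmem
      · intro j hj
        rw [Finset.mem_insert] at hj
        rcases hj with rfl | hj
        · rw [h3]
          intro h4
          apply h2
          have : v + 0 = v + u' := by rw [add_zero]; exact h4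
          exact (add_left_cancel this).symm
        · intro h4
          apply hv j hj
          have h5 : P i (P j (v + u')) = P i (v + u') := by rw [h4]
          rw [hcomm i hi j (Finset.mem_insert_of_mem hj), h3] at h5
          exact h5
    · refine ⟨v, hvW, ?_⟩
      intro j hj
      rw [Finset.mem_insert] at hj
      rcases hj with rfl | hj
      · exact h
      · exact hv j hj

end H9.Aff
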