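import Pool.Agent.H9Aff.PGroup

namespace H9.Aff

open Function

universe u

variable {G : Type u} [Group G]

theorem pgroup_main {p : ℕ} [hp : Fact p.Prime] [Finite G] (hG : IsPGroup p G)
    (A : Equiv.Perm G) (hA : IsHeap A) :
    ∃ x, ∀ r, r.Prime → r ∣ orderOf A → (A ^ (orderOf A / r)) x ≠ x := by
  classical
  have hN : 0 < orderOf A := orderOf_pos A
  obtain ⟨a, m, hpm, hNm⟩ := Nat.exists_eq_pow_mul_and_not_dvd hN.ne' p hp.out.ne_one
  have hm0 : m ≠ 0 := by
    rintro rfl
    rw [mul_zero] at hNm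
    exact hN.ne' hNm
  set N := orderOf A with hNdef
  let B : Equiv.Perm G := A ^ (p ^ a)
  have hB : IsHeap B := hA.pow _
  have hBm : B ^ m = 1 := by
    simp only [B]
    rw [← pow_mul, ← hNm, hNdef, pow_orderOf_eq_one]
  have hBr : ∀ r, r ∣ m → B ^ (m / r) = A ^ (N / r) := by
    intro r hr
    simp only [B]
    rw [← pow_mul, hNm, Nat.mul_div_assoc _ hr]
  -- powers dividing
  have hAne : ∀ r, r.Prime → r ∣ N → A ^ (N / r) ≠ 1 := by
    intro r hr hrN h
    have h1 := orderOf_dvd_of_pow_eq_one h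
    have h2 := Nat.le_of_dvd (Nat.div_pos (Nat.le_of_dvd hN hrN) hr.pos) h1
    have h3 := Nat.div_lt_self hN hr.one_lt
    omega
  -- the general step
  have key : ∀ (x0 : G) (h0 : B x0 = x0) (H : Subgroup G), H ≠ ⊤ →
      (∀ y, y ∈ H → recentre B hB x0 h0 y ∈ H) →
      (p ∣ N → ∀ y, (A ^ (N / p)) (x0 * y) = x0 * y → y ∈ H) →
      ∃ x, ∀ r, r.Prime → r ∣ N → (A ^ (N / r)) x ≠ x := by
    intro x0 h0 H hH hβH hp'
    obtain ⟨y, hyH, hy⟩ := regular_auto hG (recentre B hB x0 h0) m hpm hm0
      (by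
        ext y
        rw [recentre_pow, hBm]
        simp) m.primeFactors (by
        intro r hr
        rw [Nat.mem_primeFactors] at hr
        obtain ⟨hrp, hrm, _⟩ := hr
        refine ⟨hrp, hrm, ?_⟩
        intro h
        apply hAne r hrp (by rw [hNm]; exact dvd_mul_of_dvd_right hrm _)
        rw [← hBr r hrm]
        ext z
        have h1 := recentre_pow B hB x0 h0 (m / r) (x0⁻¹ * z)
        rw [h] at h1
        simp only [MulAut.one_apply, mul_inv_cancel_left] at h1
        exact (mul_left_cancel h1).symm) H hH hβH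
    refine ⟨x0 * y, ?_⟩
    intro r hr hrN hfix
    by_cases hrp : r = p
    · subst hrp
      exact hyH (hp' hrN y hfix)
    · have hrm : r ∣ m := by
        rw [hNm] at hrN
        rcases (hr.dvd_mul).mp hrN with h | h
        · exact absurd ((Nat.prime_dvd_prime_iff_eq hr hp.out).mp (hr.dvd_of_dvd_pow h)) hrp
        · exact h
      apply hy r (Nat.mem_primeFactors.mpr ⟨hr, hrm, hm0⟩)
      rw [recentre_pow, hBr r hrm, hfix]
      group
  by_cases h : ∃ x1, p ∣ N ∧ (A ^ (N / p)) x1 = x1
  · obtain ⟨x1, hpN, hx1⟩ := h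
    have hcomm : ∀ x, (A ^ (N / p)) (B x) = B ((A ^ (N / p)) x) := by
      intro x
      simp only [B]
      rw [← Equiv.Perm.mul_apply, ← Equiv.Perm.mul_apply, ← pow_add, ← pow_add, add_comm]
    have huniv : HeapClosed (Set.univ : Set G) := fun _ _ _ _ _ _ => trivial
    obtain ⟨x0, ⟨_, hx0⟩, h0⟩ := exists_fix hG m hpm hm0 B hB hBm
      {x | x ∈ (Set.univ : Set G) ∧ (A ^ (N / p)) x = x} (huniv.fix (hA.pow _))
      ⟨x1, trivial, hx1⟩ (by
        intro x
        change (B x ∈ (Set.univ : Set G) ∧ (A ^ (N / p)) (B x) = B x)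
          ↔ (x ∈ (Set.univ : Set G) ∧ (A ^ (N / p)) x = x)
        rw [hcomm, EmbeddingLike.apply_eq_iff_eq]
        simp)
    let γ := recentre (A ^ (N / p)) (hA.pow _) x0 hx0
    let H : Subgroup G :=
      { carrier := {x | γ x = x}
        mul_mem' := by
          intro a b ha hb
          change γ (a * b) = a * b
          rw [map_mul, show γ a = a from ha, show γ b = b from hb]
        one_mem' := map_one γ
        inv_mem' := by
          intro a ha
          change γ a⁻¹ = a⁻¹
          rw [map_inv, show γ a = a from ha] }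
    have hHmem : ∀ y, y ∈ H ↔ (A ^ (N / p)) (x0 * y) = x0 * y := by
      intro y
      change x0⁻¹ * (A ^ (N / p)) (x0 * y) = y ↔ _
      rw [inv_mul_eq_iff_eq_mul]
    refine key x0 h0 H ?_ ?_ ?_
    · intro htop
      apply hAne p hp.out hpN
      ext z
      have : x0⁻¹ * z ∈ H := by rw [htop]; trivial
      rw [hHmem] at this
      simpa using this
    · intro y hy
      rw [hHmem] at hy ⊢
      rw [recentre_apply, mul_inv_cancel_left, hcomm, hy]
    · intro _ y hy
      rwa [hHmem]
  · push Not at h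
    obtain ⟨x0, _, h0⟩ := exists_fix hG m hpm hm0 B hB hBm Set.univ
      (fun _ _ _ _ _ _ => trivial) ⟨1, trivial⟩ (by intro x; simp)
    rcases subsingleton_or_nontrivial G with hs | hs
    · refine ⟨1, ?_⟩
      intro r hr hrN
      have h1 : A = 1 := by
        ext x
        exact Subsingleton.elim _ _
      rw [hNdef, h1, orderOf_one, Nat.dvd_one] at hrN
      exact absurd hrN hr.ne_one
    · refine key x0 h0 ⊥ ?_ ?_ ?_
      · exact bot_ne_top
      · intro y hy
        rw [Subgroup.mem_bot] at hy ⊢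
        rw [hy, map_one]
      · intro hpN y hy
        exact absurd hy (h _ hpN)

lemma minPeriod_of {X : Type*} [Finite X] (A : Equiv.Perm X) (x : X)
    (h : ∀ r, r.Prime → r ∣ orderOf A → (A ^ (orderOf A / r)) x ≠ x) :
    minimalPeriod A x = orderOf A := by
  have hit : ∀ k : ℕ, (A : X → X)^[k] x = (A ^ k) x := by
    intro k
    rw [Equiv.Perm.iterate_eq_pow]
  have hdvd : minimalPeriod A x ∣ orderOf A := by
    apply IsPeriodicPt.minimalPeriod_dvd
    change (A : X → X)^[orderOf A] x = x
    rw [hit, pow_orderOf_eq_one]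
    rfl
  obtain ⟨k, hk⟩ := hdvd
  by_cases hk1 : k = 1
  · rw [hk, hk1, mul_one]
  · exfalso
    obtain ⟨r, hr, hrk⟩ := Nat.exists_prime_and_dvd hk1
    apply h r hr (by rw [hk]; exact dvd_mul_of_dvd_right hrk _)
    rw [hk, Nat.mul_div_assoc _ hrk]
    rw [← hit]
    have : IsPeriodicPt A (minimalPeriod A x) x := isPeriodicPt_minimalPeriod _ _
    exact this.mul_const _

theorem pi_main {ι : Type*} [Fintype ι] [DecidableEq ι] (P : ι → Type*) [∀ i, Group (P i)]
    [∀ i, Finite (P i)] (hcop : ∀ i j, i ≠ j → (Nat.card (P i)).Coprime (Nat.card (P j)))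
    (h : ∀ i (B : Equiv.Perm (P i)), IsHeap B → ∃ x, minimalPeriod B x = orderOf B)
    (A : Equiv.Perm (∀ i, P i)) (hA : IsHeap A) : ∃ x, minimalPeriod A x = orderOf A := by
  classical
  -- locality
  have hloc : ∀ (C : Equiv.Perm (∀ i, P i)) (_ : IsHeap C) (i : ι) (x y : ∀ i, P i),
      x i = y i → (C x) i = (C y) i := by
    intro C hC i x y hxy
    let α : (∀ i, P i) →* (∀ i, P i) :=
      { toFun := fun z => (C 1)⁻¹ * C z
        map_one' := by simp
        map_mul' := by
          intro z w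
          have e : z * w = z * (1 : ∀ i, P i)⁻¹ * w := by simp
          rw [e, hC]
          group }
    have hα : ∀ z, C z = C 1 * α z := by
      intro z
      change C z = C 1 * ((C 1)⁻¹ * C z)
      rw [mul_inv_cancel_left]
    set z := x⁻¹ * y with hz
    have hzi : z i = 1 := by
      rw [hz, Pi.mul_apply, Pi.inv_apply, hxy, inv_mul_cancel]
    let M := ∏ j ∈ Finset.univ.erase i, Nat.card (P j)
    have hzM : z ^ M = 1 := by
      ext j
      rw [Pi.pow_apply, Pi.one_apply]
      by_cases hj : j = i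
      · subst hj
        rw [hzi, one_pow]
      · have hd : Nat.card (P j) ∣ M :=
          Finset.dvd_prod_of_mem (fun j => Nat.card (P j)) (Finset.mem_erase.mpr ⟨hj, Finset.mem_univ _⟩)
        obtain ⟨c, hc⟩ := hd
        rw [hc, pow_mul, pow_card_eq_one', one_pow]
    have hcopM : Nat.Coprime M (Nat.card (P i)) := by
      apply Nat.Coprime.prod_left
      intro j hj
      exact hcop j i (Finset.mem_erase.mp hj).1
    have h1 : (α z i) ^ M = 1 := by
      rw [← Pi.pow_apply, ← map_pow, hzM, map_one, Pi.one_apply]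
    have h2 : (α z i) ^ (Nat.card (P i)) = 1 := pow_card_eq_one'
    have h3 : α z i = 1 := by
      have d1 := orderOf_dvd_of_pow_eq_one h1
      have d2 := orderOf_dvd_of_pow_eq_one h2
      have d3 := Nat.dvd_gcd d1 d2
      rw [hcopM, Nat.dvd_one, orderOf_eq_one_iff] at d3
      exact d3
    have h4 : y = x * z := by rw [hz]; group
    rw [hα x, hα y, h4, map_mul, Pi.mul_apply, Pi.mul_apply, Pi.mul_apply, h3, mul_one]
  let B : ∀ i, Equiv.Perm (P i) := fun i =>
    { toFun := fun g => (A (Pi.mulSingle i g)) i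
      invFun := fun g => (A.symm (Pi.mulSingle i g)) i
      left_inv := by
        intro g
        have := hloc A.symm hA.symm i (Pi.mulSingle i ((A (Pi.mulSingle i g)) i)) (A (Pi.mulSingle i g))
          (by simp)
        change (A.symm (Pi.mulSingle i ((A (Pi.mulSingle i g)) i))) i = g
        rw [this]
        simp
      right_inv := by
        intro g
        have := hloc A hA i (Pi.mulSingle i ((A.symm (Pi.mulSingle i g)) i)) (A.symm (Pi.mulSingle i g))
          (by simp)
        change (A (Pi.mulSingle i ((A.symm (Pi.mulSingle i g)) i))) i = g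
        rw [this]
        simp }
  have hB : ∀ i x, (A x) i = B i (x i) := by
    intro i x
    exact hloc A hA i x (Pi.mulSingle i (x i)) (by simp)
  have hBk : ∀ k i x, ((A ^ k) x) i = (B i ^ k) (x i) := by
    intro k i
    induction k with
    | zero => intro x; simp
    | succ k ih =>
      intro x
      rw [pow_succ', Equiv.Perm.mul_apply, hB, ih, pow_succ', Equiv.Perm.mul_apply]
  have hBheap : ∀ i, IsHeap (B i) := by
    intro i x y z
    have h1 := hB i (Pi.mulSingle i x * (Pi.mulSingle i y)⁻¹ * Pi.mulSingle i z)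
    rw [hA] at h1
    simp only [Pi.mul_apply, Pi.inv_apply, hB, Pi.mulSingle_eq_same] at h1
    exact h1.symm
  choose x hx using fun i => h i (B i) (hBheap i)
  refine ⟨x, ?_⟩
  have hit : ∀ k : ℕ, (A : _ → _)^[k] x = (A ^ k) x := by
    intro k
    rw [Equiv.Perm.iterate_eq_pow]
  apply Nat.dvd_antisymm
  · apply IsPeriodicPt.minimalPeriod_dvd
    change (A : _ → _)^[orderOf A] x = x
    rw [hit, pow_orderOf_eq_one]
    rfl
  · apply orderOf_dvd_of_pow_eq_one
    have h1 : (A ^ minimalPeriod A x) x = x := by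
      rw [← hit]
      exact isPeriodicPt_minimalPeriod _ _
    have h2 : ∀ i, B i ^ minimalPeriod A x = 1 := by
      intro i
      rw [← orderOf_dvd_iff_pow_eq_one, ← hx i]
      apply IsPeriodicPt.minimalPeriod_dvd
      change (B i : _ → _)^[minimalPeriod A x] (x i) = x i
      rw [Equiv.Perm.iterate_eq_pow, ← hBk, h1]
    ext y i
    rw [hBk, h2]
    rfl

theorem nilpotent_main [Finite G] [Group.IsNilpotent G] (A : Equiv.Perm G) (hA : IsHeap A) :
    ∃ x, minimalPeriod A x = orderOf A := by
  classical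
  obtain ⟨e⟩ := ((Group.isNilpotent_of_finite_tfae (G := G)).out 0 4).mp
    (inferInstance : Group.IsNilpotent G)
  let P : (Nat.card G).primeFactors → Type u := fun p => ∀ Q : Sylow (p : ℕ) G, Q
  have hpg : ∀ p : (Nat.card G).primeFactors, IsPGroup (p : ℕ) (P p) := by
    intro p g
    have : ∀ Q : Sylow (p : ℕ) G, ∃ k, (g Q) ^ ((p : ℕ) ^ k) = 1 := fun Q => Q.isPGroup' (g Q)
    choose k hk using this
    have : Fintype (Sylow (p : ℕ) G) := Fintype.ofFinite _
    refine ⟨∑ Q, k Q, ?_⟩
    funext Q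
    rw [Pi.pow_apply, Pi.one_apply]
    have hle : k Q ≤ ∑ Q, k Q := Finset.single_le_sum (fun _ _ => Nat.zero_le _) (Finset.mem_univ Q)
    obtain ⟨c, hc⟩ := Nat.exists_eq_add_of_le hle
    rw [hc, pow_add, pow_mul, hk, one_pow]
  let A' : Equiv.Perm (∀ p, P p) := (e.toEquiv.trans A).trans e.symm.toEquiv
  have hA' : IsHeap A' := by
    intro x y z
    change e.symm (A (e (x * y⁻¹ * z))) = e.symm (A (e x)) * (e.symm (A (e y)))⁻¹ * e.symm (A (e z))
    rw [map_mul e, map_mul e, map_inv e, hA, map_mul e.symm, map_mul e.symm, map_inv e.symm]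
  have hA'k : ∀ k x, (A' ^ k) x = e.symm ((A ^ k) (e x)) := by
    intro k
    induction k with
    | zero => intro x; simp
    | succ k ih =>
      intro x
      rw [pow_succ', Equiv.Perm.mul_apply, ih, pow_succ', Equiv.Perm.mul_apply]
      change e.symm (A (e (e.symm _))) = _
      rw [MulEquiv.apply_symm_apply]
  obtain ⟨x', hx'⟩ := pi_main P (by
      intro p q hpq
      have hp : Fact ((p : ℕ).Prime) := ⟨(Nat.mem_primeFactors.mp p.2).1⟩
      have hq : Fact ((q : ℕ).Prime) := ⟨(Nat.mem_primeFactors.mp q.2).1⟩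
      obtain ⟨n, hn⟩ := IsPGroup.iff_card.mp (hpg p)
      obtain ⟨l, hl⟩ := IsPGroup.iff_card.mp (hpg q)
      rw [hn, hl]
      apply Nat.Coprime.pow
      rw [Nat.coprime_primes hp.out hq.out]
      intro h
      exact hpq (Subtype.ext h)) (by
      intro p B hB
      have hp : Fact ((p : ℕ).Prime) := ⟨(Nat.mem_primeFactors.mp p.2).1⟩
      obtain ⟨x, hx⟩ := pgroup_main (hpg p) B hB
      exact ⟨x, minPeriod_of B x hx⟩) A' hA'
  refine ⟨e x', ?_⟩
  have hit : ∀ k : ℕ, (A : _ → _)^[k] (e x') = (A ^ k) (e x') := by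
    intro k
    rw [Equiv.Perm.iterate_eq_pow]
  apply Nat.dvd_antisymm
  · apply IsPeriodicPt.minimalPeriod_dvd
    change (A : _ → _)^[orderOf A] (e x') = e x'
    rw [hit, pow_orderOf_eq_one]
    rfl
  · apply orderOf_dvd_of_pow_eq_one
    have h1 : (A ^ minimalPeriod A (e x')) (e x') = e x' := by
      rw [← hit]
      exact isPeriodicPt_minimalPeriod _ _
    have h2 : A' ^ minimalPeriod A (e x') = 1 := by
      rw [← orderOf_dvd_iff_pow_eq_one, ← hx']
      apply IsPeriodicPt.minimalPeriod_dvd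
      change (A' : _ → _)^[minimalPeriod A (e x')] x' = x'
      rw [Equiv.Perm.iterate_eq_pow, hA'k, h1]
      simp
    ext y
    have h3 := hA'k (minimalPeriod A (e x')) (e.symm y)
    rw [h2, MulEquiv.apply_symm_apply] at h3
    have h4 := congrArg e h3
    simpa using h4.symm

end H9.Aff
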