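import Pool.Agent.H9Aff.Basic

namespace H9.Aff

open Function

universe u

variable {G : Type u} [Group G]

/-- A finite nontrivial `p`-group without proper nontrivial subgroups. -/
lemma simple_pgroup {p : ℕ} [hp : Fact p.Prime] [Finite G] (hG : IsPGroup p G)
    (hs : ∀ H : Subgroup G, H = ⊥ ∨ H = ⊤) :
    (∀ a b : G, a * b = b * a) ∧ ∀ a : G, a ^ p = 1 := by
  rcases subsingleton_or_nontrivial G with h | h
  · exact ⟨fun a b => Subsingleton.elim _ _, fun a => Subsingleton.elim _ _⟩
  · have hdvd : p ∣ Nat.card G := by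
      rcases hG.card_eq_or_dvd with h1 | h1
      · exact absurd h1 (Finite.one_lt_card).ne'
      · exact h1
    obtain ⟨y, hy⟩ := exists_prime_orderOf_dvd_card' p hdvd
    have hy1 : y ≠ 1 := by
      rintro rfl
      rw [orderOf_one] at hy
      exact hp.out.one_lt.ne hy
    have htop : Subgroup.zpowers y = ⊤ := by
      rcases hs (Subgroup.zpowers y) with h1 | h1
      · rw [Subgroup.zpowers_eq_bot] at h1
        exact absurd h1 hy1
      · exact h1
    have hcard : Nat.card G = p := by
      rw [← hy, ← Nat.card_zpowers, htop]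
      simp
    constructor
    · intro a b
      have ha : a ∈ Subgroup.zpowers y := by rw [htop]; trivial
      have hb : b ∈ Subgroup.zpowers y := by rw [htop]; trivial
      obtain ⟨i, rfl⟩ := Subgroup.mem_zpowers_iff.mp ha
      obtain ⟨j, rfl⟩ := Subgroup.mem_zpowers_iff.mp hb
      rw [← zpow_add, ← zpow_add, add_comm]
    · intro a
      rw [← hcard]
      exact pow_card_eq_one'

lemma coatom_quotient {M : Subgroup G} (hM : IsCoatom M) [M.Normal] (H : Subgroup (G ⧸ M)) :
    H = ⊥ ∨ H = ⊤ := by
  have h1 : M ≤ H.comap (QuotientGroup.mk' M) := by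
    intro x hx
    rw [Subgroup.mem_comap]
    have : QuotientGroup.mk' M x = 1 := by
      rw [QuotientGroup.mk'_apply, QuotientGroup.eq_one_iff]; exact hx
    rw [this]
    exact H.one_mem
  have hsurj := QuotientGroup.mk'_surjective M
  rcases hM.le_iff.mp h1 with h2 | h2
  · right
    rw [← Subgroup.map_comap_eq_self_of_surjective hsurj H, h2]
    exact Subgroup.map_top_of_surjective _ hsurj
  · left
    rw [← Subgroup.map_comap_eq_self_of_surjective hsurj H, h2]
    rw [eq_bot_iff]
    rintro _ ⟨x, hx, rfl⟩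
    rw [Subgroup.mem_bot, QuotientGroup.mk'_apply, QuotientGroup.eq_one_iff]
    exact hx

lemma coatom_facts {p : ℕ} [hp : Fact p.Prime] [Finite G] (hG : IsPGroup p G)
    {M : Subgroup G} (hM : IsCoatom M) :
    (∀ a b : G, (b * a)⁻¹ * (a * b) ∈ M) ∧ ∀ a : G, a ^ p ∈ M := by
  have : Group.IsNilpotent G := hG.isNilpotent
  have : M.Normal := Subgroup.NormalizerCondition.normal_of_coatom M Group.normalizerCondition_of_isNilpotent hM
  obtain ⟨h1, h2⟩ := simple_pgroup (hG.to_quotient M) (coatom_quotient hM)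
  constructor
  · intro a b
    rw [← QuotientGroup.eq]
    have := h1 (a : G ⧸ M) (b : G ⧸ M)
    simpa using this.symm
  · intro a
    rw [← QuotientGroup.eq_one_iff]
    have := h2 (a : G ⧸ M)
    simpa using this

lemma frattini_comm {p : ℕ} [hp : Fact p.Prime] [Finite G] (hG : IsPGroup p G) (a b : G) :
    (b * a)⁻¹ * (a * b) ∈ frattini G := by
  rw [frattini, Order.radical]
  simp only [Subgroup.mem_iInf]
  intro M hM
  exact (coatom_facts hG hM).1 a b

lemma frattini_pow {p : ℕ} [hp : Fact p.Prime] [Finite G] (hG : IsPGroup p G) (a : G) :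
    a ^ p ∈ frattini G := by
  rw [frattini, Order.radical]
  simp only [Subgroup.mem_iInf]
  intro M hM
  exact (coatom_facts hG hM).2 a


/-- `γ` of prime order `r ≠ p` acting trivially modulo the Frattini subgroup is trivial. -/
lemma trivial_of_mod_frattini {p : ℕ} [hp : Fact p.Prime] [Finite G] (hG : IsPGroup p G)
    (γ : MulAut G) (r : ℕ) (hr : r ≠ 0) (hpr : ¬ p ∣ r) (hγ : γ ^ r = 1)
    (h : ∀ x, x⁻¹ * γ x ∈ frattini G) : γ = 1 := by
  let F : Subgroup G :=
    { carrier := {x | γ x = x}
      mul_mem' := by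
        intro a b ha hb
        change γ (a * b) = a * b
        rw [map_mul, show γ a = a from ha, show γ b = b from hb]
      one_mem' := map_one γ
      inv_mem' := by
        intro a ha
        change γ a⁻¹ = a⁻¹
        rw [map_inv, show γ a = a from ha] }
  have hF : F ⊔ frattini G = ⊤ := by
    rw [eq_top_iff]
    intro x _
    have hB : IsHeap (γ.toEquiv : Equiv.Perm G) :=
      affine_isHeap γ 1 _ (by intro x; simp)
    have hpow : ∀ k (y : G), ((γ.toEquiv : Equiv.Perm G) ^ k) y = (γ ^ k) y := by
      intro k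
      induction k with
      | zero => intro y; simp
      | succ k ih =>
        intro y
        rw [pow_succ', Equiv.Perm.mul_apply, ih, pow_succ', MulAut.mul_apply]
        rfl
    have hBm : (γ.toEquiv : Equiv.Perm G) ^ r = 1 := by
      ext y
      rw [hpow, hγ]
      rfl
    obtain ⟨y, hy, hy'⟩ := exists_fix hG r hpr hr (γ.toEquiv) hB hBm
      {y | x⁻¹ * y ∈ frattini G} (by
        intro a ha b hb c hc
        change x⁻¹ * (a * b⁻¹ * c) ∈ frattini G
        have e : x⁻¹ * (a * b⁻¹ * c) = (x⁻¹ * a) * (x⁻¹ * b)⁻¹ * (x⁻¹ * c) := by group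
        rw [e]
        exact mul_mem (mul_mem ha (inv_mem hb)) hc) ⟨x, by
          change x⁻¹ * x ∈ frattini G
          simp⟩ (by
        intro a
        change x⁻¹ * γ a ∈ frattini G ↔ x⁻¹ * a ∈ frattini G
        have e : x⁻¹ * γ a = (x⁻¹ * a) * (a⁻¹ * γ a) := by group
        rw [e]
        exact Subgroup.mul_mem_cancel_right _ (h a))
    have hyF : y ∈ F := hy'
    have e : x = y * (x⁻¹ * y)⁻¹ := by group
    rw [e]
    exact mul_mem (Subgroup.mem_sup_left hyF) (Subgroup.mem_sup_right (inv_mem hy))
  have hF' : F = ⊤ := frattini_nongenerating hF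
  ext x
  have : x ∈ F := by rw [hF']; trivial
  exact this

section quot

variable {p : ℕ} [hp : Fact p.Prime] [Finite G] (hG : IsPGroup p G)

/-- The elementary abelian group `G / Φ(G)`, written additively. -/
abbrev V (G : Type u) [Group G] := Additive (G ⧸ frattini G)

/-- its commutative group structure -/
@[reducible] def instV (hG : IsPGroup p G) : AddCommGroup (V G) :=
  { (inferInstance : AddGroup (V G)) with
    add_comm := by
      intro a b
      change Additive.ofMul (Additive.toMul a * Additive.toMul b)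
        = Additive.ofMul (Additive.toMul b * Additive.toMul a)
      congr 1
      generalize Additive.toMul a = a
      generalize Additive.toMul b = b
      induction a using QuotientGroup.induction_on with
      | H a =>
        induction b using QuotientGroup.induction_on with
        | H b =>
          rw [← QuotientGroup.mk_mul, ← QuotientGroup.mk_mul]
          symm
          rw [QuotientGroup.eq]
          exact frattini_comm hG a b }

end quot

theorem regular_auto {p : ℕ} [hp : Fact p.Prime] [Finite G] (hG : IsPGroup p G) (β : MulAut G)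
    (m : ℕ) (hm : ¬ p ∣ m) (hm0 : m ≠ 0) (hβ : β ^ m = 1) (R : Finset ℕ)
    (hR : ∀ r ∈ R, r.Prime ∧ r ∣ m ∧ β ^ (m / r) ≠ 1) (H : Subgroup G) (hH : H ≠ ⊤)
    (hβH : ∀ x ∈ H, β x ∈ H) : ∃ x, x ∉ H ∧ ∀ r ∈ R, (β ^ (m / r)) x ≠ x := by
  classical
  let _ := instV hG
  -- the class of an element
  let cl : G → V G := fun x => Additive.ofMul (x : G ⧸ frattini G)
  have hcl : ∀ v : V G, ∃ x, cl x = v := by
    intro v
    obtain ⟨x, hx⟩ := QuotientGroup.mk_surjective (Additive.toMul v)
    exact ⟨x, by simp only [cl]; rw [hx]; rfl⟩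
  have hcl_mul : ∀ x y, cl (x * y) = cl x + cl y := fun x y => rfl
  have hcl_eq : ∀ x y, cl x = cl y ↔ x⁻¹ * y ∈ frattini G := by
    intro x y
    have : cl x = cl y ↔ (x : G ⧸ frattini G) = (y : G ⧸ frattini G) :=
      Additive.ofMul.injective.eq_iff
    rw [this, QuotientGroup.eq]
  have hcl_p : ∀ v : V G, p • v = 0 := by
    intro v
    obtain ⟨x, rfl⟩ := hcl v
    have e : ∀ n : ℕ, n • cl x = cl (x ^ n) := by
      intro n
      induction n with
      | zero => simp only [zero_smul, pow_zero]; rfl
      | succ n ih => rw [add_smul, one_smul, ih, pow_succ, hcl_mul]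
    rw [e]
    have h1 : cl (x ^ p) = cl 1 := by
      rw [eq_comm, hcl_eq]
      simpa using frattini_pow hG x
    rw [h1]; rfl
  -- the induced map
  have hle : frattini G ≤ (frattini G).comap (β : G ≃* G).toMonoidHom := by
    have := (Subgroup.characteristic_iff_le_comap.mp (frattini_characteristic (G := G))) β
    exact this
  let τ : AddMonoid.End (V G) := MonoidHom.toAdditive (QuotientGroup.map _ _ (β : G ≃* G).toMonoidHom hle)
  have hτ : ∀ x, τ (cl x) = cl (β x) := fun x => rfl
  have hτk : ∀ k x, (τ ^ k) (cl x) = cl ((β ^ k) x) := by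
    intro k
    induction k with
    | zero => intro x; simp
    | succ k ih =>
      intro x
      rw [pow_succ', pow_succ', MulAut.mul_apply]
      change τ ((τ ^ k) (cl x)) = _
      rw [ih, hτ]
  have hτm : τ ^ m = 1 := by
    ext v
    obtain ⟨x, rfl⟩ := hcl v
    rw [hτk, hβ]
    rfl
  -- inverse of r modulo p
  have hinv : ∀ r ∈ R, ∃ c : ℕ, ∃ t : ℕ, c * r = 1 + t * p := by
    intro r hr
    obtain ⟨hrp, hrm, _⟩ := hR r hr
    have hcop : Nat.Coprime r p := by
      rw [Nat.coprime_primes hrp hp.out]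
      rintro rfl
      exact hm hrm
    obtain ⟨c, hc⟩ := Nat.exists_mul_mod_eq_one_of_coprime hcop hp.out.one_lt
    refine ⟨c, (r * c) / p, ?_⟩
    have := Nat.div_add_mod (r * c) p
    rw [hc.2] at this
    rw [mul_comm c r]
    linarith [mul_comm p (r * c / p)]
  choose! c hc using hinv
  let P : ℕ → AddMonoid.End (V G) := fun r => (c r) • ∑ j ∈ Finset.range r, (τ ^ (m / r)) ^ j
  have hP_apply : ∀ r v, P r v = c r • ∑ j ∈ Finset.range r, ((τ ^ (m / r)) ^ j) v := by
    intro r v
    have h1 : ∀ (n : ℕ) (f : AddMonoid.End (V G)), (n • f) v = n • f v := by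
      intro n f
      induction n with
      | zero => rw [zero_nsmul, zero_nsmul]; rfl
      | succ n ih => rw [succ_nsmul, succ_nsmul, ← ih]; rfl
    have h2 : ∀ (s : Finset ℕ) (f : ℕ → AddMonoid.End (V G)), (∑ j ∈ s, f j) v = ∑ j ∈ s, f j v := by
      intro s f
      induction s using Finset.induction_on with
      | empty => rfl
      | insert a s ha ih => rw [Finset.sum_insert ha, Finset.sum_insert ha, ← ih]; rfl
    simp only [P]
    rw [h1, h2]
  -- fixed by P iff fixed by T
  have hT_P : ∀ r ∈ R, ∀ v, (τ ^ (m / r)) (P r v) = P r v := by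
    intro r hr v
    obtain ⟨hrp, hrm, _⟩ := hR r hr
    have hTr : (τ ^ (m / r)) ^ r = 1 := by
      rw [← pow_mul, Nat.div_mul_cancel hrm, hτm]
    have h0 : (τ ^ (m / r)) * P r = P r := by
      simp only [P]
      rw [mul_smul_comm]
      congr 1
      have := mul_geom_sum (τ ^ (m / r)) r
      rw [hTr, sub_self, sub_mul, one_mul, sub_eq_zero] at this
      exact this
    calc (τ ^ (m / r)) (P r v) = ((τ ^ (m / r)) * P r) v := rfl
      _ = P r v := by rw [h0]
  have hP_T : ∀ r ∈ R, ∀ v, (τ ^ (m / r)) v = v → P r v = v := by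
    intro r hr v hv
    have hj : ∀ j : ℕ, ((τ ^ (m / r)) ^ j) v = v := by
      intro j
      induction j with
      | zero => simp
      | succ j ih =>
        rw [pow_succ']
        change (τ ^ (m / r)) (((τ ^ (m / r)) ^ j) v) = v
        rw [ih, hv]
    rw [hP_apply]
    simp only [hj, Finset.sum_const, Finset.card_range]
    obtain ⟨t, ht⟩ := hc r hr
    rw [← mul_smul, ht, add_smul, one_smul, mul_smul, hcl_p, smul_zero, add_zero]
  have hidem : ∀ r ∈ R, ∀ v, P r (P r v) = P r v := fun r hr v => hP_T r hr _ (hT_P r hr v)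
  have hcomm : ∀ r ∈ R, ∀ s ∈ R, ∀ v, P r (P s v) = P s (P r v) := by
    intro r _ s _ v
    have : Commute (P r) (P s) := by
      simp only [P]
      apply Commute.smul_left
      apply Commute.smul_right
      apply Commute.sum_left
      intro i _
      apply Commute.sum_right
      intro j _
      rw [← pow_mul, ← pow_mul]
      exact (Commute.refl τ).pow_pow _ _
    exact congrArg (fun f : AddMonoid.End (V G) => f v) this.eq
  let W : Set (V G) := cl '' (H : Set G)
  have hWτ : ∀ k, ∀ v ∈ W, (τ ^ k) v ∈ W := by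
    intro k v hv
    obtain ⟨x, hx, rfl⟩ := hv
    rw [hτk]
    refine ⟨(β ^ k) x, ?_, rfl⟩
    clear hcl_p
    induction k with
    | zero => simpa using hx
    | succ k ih =>
      rw [pow_succ', MulAut.mul_apply]
      exact hβH _ ih
  have hWadd : ∀ v ∈ W, ∀ w ∈ W, v + w ∈ W := by
    rintro _ ⟨x, hx, rfl⟩ _ ⟨y, hy, rfl⟩
    exact ⟨x * y, H.mul_mem hx hy, hcl_mul _ _⟩
  have hW0 : (0 : V G) ∈ W := ⟨1, H.one_mem, rfl⟩
  have hWP : ∀ r ∈ R, ∀ v ∈ W, P r v ∈ W := by
    intro r _ v hv
    rw [hP_apply]
    have h1 : ∀ s : Finset ℕ, ∑ j ∈ s, ((τ ^ (m / r)) ^ j) v ∈ W := by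
      intro s
      induction s using Finset.induction_on with
      | empty => simpa using hW0
      | insert a s ha ih =>
        rw [Finset.sum_insert ha]
        refine hWadd _ ?_ _ ih
        rw [← pow_mul]
        exact hWτ _ _ hv
    generalize c r = n
    have h2 := h1 (Finset.range r)
    generalize ∑ j ∈ Finset.range r, ((τ ^ (m / r)) ^ j) v = w at h2
    induction n with
    | zero => simpa using hW0
    | succ n ih => rw [add_smul, one_smul]; exact hWadd _ ih _ h2
  have hWne : ∃ v, v ∉ W := by
    by_contra hcon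
    push Not at hcon
    apply hH
    apply frattini_nongenerating
    rw [eq_top_iff]
    intro x _
    obtain ⟨h, hh, hhx⟩ := hcon (cl x)
    rw [hcl_eq] at hhx
    have e : x = h * (h⁻¹ * x) := by group
    rw [e]
    exact mul_mem (Subgroup.mem_sup_left hh) (Subgroup.mem_sup_right hhx)
  have hPne : ∀ r ∈ R, ∃ v, P r v ≠ v := by
    intro r hr
    by_contra hcon
    push Not at hcon
    obtain ⟨hrp, hrm, hrne⟩ := hR r hr
    apply hrne
    apply trivial_of_mod_frattini hG (β ^ (m / r)) r hrp.ne_zero
    · intro h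
      exact hm (h.trans hrm)
    · rw [← pow_mul, Nat.div_mul_cancel hrm, hβ]
    · intro x
      rw [← hcl_eq, ← hτk]
      have := hT_P r hr (cl x)
      rw [hcon] at this
      exact this.symm
  obtain ⟨v, hvW, hv⟩ := proj_lemma R P hidem hcomm W hWP hWne hPne
  obtain ⟨x, rfl⟩ := hcl v
  refine ⟨x, fun hx => hvW ⟨x, hx, rfl⟩, ?_⟩
  intro r hr hfix
  apply hv r hr
  apply hP_T r hr
  rw [hτk, hfix]

end H9.Aff
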